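import Pool.Agent.TH970.UM.UN

/-! The uniform exponent of a `U_m`-number of a type `m` dividing `n` or `n + 1` equals `n`. -/

set_option autoImplicit false

open Polynomial

namespace Pool.Agent.Results.MP_1ab58f_nt.UNumbers

/-- The naive height of an integer polynomial: the maximum of the absolute values of its
coefficients. -/
def naiveHeight (P : ℤ[X]) : ℕ := P.support.sup fun i => (P.coeff i).natAbs

/-- Mahler's exponent `w_n(ξ)`: the supremum of the real `w` for which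
`0 < |P(ξ)| ≤ H(P)^(-w)` holds for infinitely many integer polynomials of degree at most `n`. -/
noncomputable def mahlerExponent (n : ℕ) (ξ : ℝ) : EReal :=
  sSup {W : EReal | ∃ w : ℝ, W = (w : EReal) ∧
    {P : ℤ[X] | P.natDegree ≤ n ∧ 0 < |aeval ξ P| ∧
      |aeval ξ P| ≤ (naiveHeight P : ℝ) ^ (-w)}.Infinite}

/-- `ξ` is a `U_m`-number: `w_m(ξ) = ∞` and `w_{m-1}(ξ) < ∞`. -/
def IsUNumber (m : ℕ) (ξ : ℝ) : Prop :=
  1 ≤ m ∧ mahlerExponent m ξ = ⊤ ∧ mahlerExponent (m - 1) ξ < ⊤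

/-- The uniform exponent: the supremum of the real `w` such that for every sufficiently large
real `H` there is a nonzero integer polynomial `P` of degree at most `n` and height at most `H`
with `0 < |P(ξ)| ≤ H^(-w)`. -/
noncomputable def uniformExponent (n : ℕ) (ξ : ℝ) : EReal :=
  sSup {W : EReal | ∃ w : ℝ, W = (w : EReal) ∧ ∃ H₀ : ℝ, ∀ H : ℝ, H₀ ≤ H →
    ∃ P : ℤ[X], P ≠ 0 ∧ P.natDegree ≤ n ∧ (naiveHeight P : ℝ) ≤ H ∧
      0 < |aeval ξ P| ∧ |aeval ξ P| ≤ H ^ (-w)}

open Pool.Agent.TH970.UM Pool.Agent.W71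

theorem exists_good (ξ : ℝ) (hξ : Transcendental ℤ ξ) (m : ℕ) (h : IsUNumber m ξ) (K : ℝ) :
    ∃ Q : ℤ[X], Irreducible Q ∧ Q.natDegree = m ∧ aeval ξ Q ≠ 0 ∧
      K * (1 + Pool.Agent.W376.GelA.hh Q) ≤ -Real.log |aeval ξ Q| := by
  obtain ⟨hm, htop, hlow⟩ := h
  obtain ⟨r, hr1, _⟩ := EReal.lt_iff_exists_real_btwn.1 hlow
  refine exists_Q ξ hξ m hm r ?_ ?_ K
  · by_contra hinf
    have h1 : (r : EReal) ≤ mahlerExponent (m - 1) ξ := le_sSup ⟨r, rfl, hinf⟩
    exact absurd (lt_of_lt_of_le hr1 h1) (lt_irrefl _)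
  · intro w
    have h1 : (((max w 0 : ℝ)) : EReal) < mahlerExponent m ξ := by
      rw [htop]; exact EReal.coe_lt_top _
    obtain ⟨W, ⟨v, rfl, hv⟩, hlt⟩ := lt_sSup_iff.1 h1
    have hvw : max w 0 < v := by exact_mod_cast hlt
    refine hv.mono ?_
    rintro P ⟨hd, hpos, hle⟩
    refine ⟨hd, hpos, hle.trans ?_⟩
    have hP : P ≠ 0 := by
      rintro rfl
      simp at hpos
    apply Real.rpow_le_rpow_of_exponent_le (hgt_pos' hP)
    have := le_max_left w 0
    linarith

theorem le_uniform (n : ℕ) (hn : 1 ≤ n) (ξ : ℝ) (hξ : Transcendental ℤ ξ) :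
    (n : EReal) ≤ uniformExponent n ξ := by
  by_contra hlt
  push Not at hlt
  obtain ⟨r, hr1, hr2⟩ := EReal.lt_iff_exists_real_btwn.1 hlt
  have hrn : r < n := by
    have : (r : EReal) < ((n : ℝ) : EReal) := by
      refine lt_of_lt_of_eq hr2 ?_
      norm_cast
    exact_mod_cast this
  obtain ⟨C, hC, hdir⟩ := Pool.Agent.H961R3.C.dirichlet n hn ξ
  set e : ℝ := n - r with he
  have he0 : 0 < e := by rw [he]; linarith
  obtain ⟨K, hK⟩ : ∃ K : ℝ, ∀ H : ℝ, K ≤ H → C * 2 ^ n ≤ H ^ e :=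
    Filter.eventually_atTop.1 ((tendsto_rpow_atTop he0).eventually_ge_atTop (C * 2 ^ n))
  have hmem : (r : EReal) ≤ uniformExponent n ξ := by
    refine le_sSup ⟨r, rfl, max K 2, fun H hH => ?_⟩
    have hHK : K ≤ H := (le_max_left _ _).trans hH
    have hH2 : 2 ≤ H := (le_max_right _ _).trans hH
    have hH0 : 0 < H := by linarith
    have hfl : 1 ≤ ⌊H⌋₊ := by
      rw [Nat.one_le_floor_iff]; linarith
    obtain ⟨P, hP0, hPd, hPc, hPv⟩ := hdir ⌊H⌋₊ hfl
    have hfH : ((⌊H⌋₊ : ℕ) : ℝ) ≤ H := Nat.floor_le hH0.le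
    have hfH2 : H / 2 ≤ ((⌊H⌋₊ : ℕ) : ℝ) := by
      have := Nat.lt_floor_add_one H
      linarith
    refine ⟨P, hP0, hPd, ?_, abs_pos.2 (fun h => hξ ⟨P, hP0, h⟩), ?_⟩
    · apply hgt_le_real (P := P) H hH0.le
      intro i
      exact (hPc i).trans hfH
    · refine hPv.trans ?_
      have h1 : C / ((⌊H⌋₊ : ℕ) : ℝ) ^ n ≤ C / (H / 2) ^ n := by
        apply div_le_div_of_nonneg_left (by linarith) (by positivity)
        exact pow_le_pow_left₀ (by positivity) hfH2 n
      have h2 : C / (H / 2) ^ n = (C * 2 ^ n) * H ^ (-(n : ℝ)) := by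
        rw [Real.rpow_neg hH0.le, Real.rpow_natCast, div_pow]
        field_simp
      refine h1.trans (h2.le.trans ?_)
      have h3 : (C * 2 ^ n) * H ^ (-(n : ℝ)) ≤ H ^ e * H ^ (-(n : ℝ)) :=
        mul_le_mul_of_nonneg_right (hK H hHK) (Real.rpow_nonneg hH0.le _)
      refine h3.trans (le_of_eq ?_)
      rw [← Real.rpow_add hH0]
      congr 1
      rw [he]; ring
  exact absurd (lt_of_lt_of_le hr1 hmem) (lt_irrefl _)

theorem uniform_le (n m D : ℕ) (ξ : ℝ) (hξ : Transcendental ℤ ξ) (h : IsUNumber m ξ)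
    (hD1 : ∀ a, m * a + 1 ≤ n → m * a + (m - 1) ≤ D) (hD2 : n ≤ D) :
    uniformExponent n ξ ≤ (D : EReal) := by
  apply sSup_le
  rintro W ⟨w, rfl, H0, hw⟩
  by_contra hlt
  push Not at hlt
  have hDw : (D : ℝ) < w := by
    have : ((D : ℝ) : EReal) < (w : EReal) := by
      refine lt_of_eq_of_lt ?_ hlt
      norm_cast
    exact_mod_cast this
  obtain ⟨H, hH0, hH1, hH⟩ := upper ξ n m D h.1 hD1 hD2 (exists_good ξ hξ m h) w hDw H0
  obtain ⟨P, hP0, hPd, hPh, hPv, hPw⟩ := hw H hH0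
  have := hH P hP0 hPd (fun i => (coeff_le P i).trans hPh) (abs_pos.1 hPv)
  linarith

/-- For every `U_m`-number `ξ` and every `n ≥ 1` the uniform exponent of `ξ` in degree `n` lies
between `n` and `max (n, m ⌈n/m⌉ - 1)`, and it equals `n` if `m` divides `n` or `n + 1`. -/
theorem result (n m : ℕ) (hn : 1 ≤ n) (ξ : ℝ) (hξ : Transcendental ℚ ξ) (h : IsUNumber m ξ) :
    (n : EReal) ≤ uniformExponent n ξ ∧
    uniformExponent n ξ ≤ ((max n (m * ((n + m - 1) / m) - 1) : ℕ) : EReal) ∧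
    (m ∣ n ∨ m ∣ n + 1 → uniformExponent n ξ = (n : EReal)) := by
  have hξ' : Transcendental ℤ ξ := by
    intro h
    exact hξ (h.extendScalars (RingHom.injective_int (algebraMap ℤ ℚ)))
  have hm := h.1
  have hlow := le_uniform n hn ξ hξ'
  refine ⟨hlow, ?_, ?_⟩
  · apply uniform_le n m _ ξ hξ' h _ (le_max_left _ _)
    intro a ha
    have h1 : a + 1 ≤ (n + m - 1) / m := by
      rw [Nat.le_div_iff_mul_le (by omega)]
      have : (a + 1) * m = m * a + m := by ring
      omega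
    have h2 : m * (a + 1) ≤ m * ((n + m - 1) / m) := Nat.mul_le_mul_left m h1
    have h3 : m * (a + 1) = m * a + m := by ring
    have h4 := le_max_right n (m * ((n + m - 1) / m) - 1)
    omega
  · intro hdvd
    apply le_antisymm _ hlow
    apply uniform_le n m n ξ hξ' h _ le_rfl
    intro a ha
    rcases hdvd with ⟨k, hk⟩ | ⟨k, hk⟩
    · have h1 : a < k := by
        by_contra hge
        push Not at hge
        have := Nat.mul_le_mul_left m hge
        omega
      have h2 : m * (a + 1) ≤ m * k := Nat.mul_le_mul_left m h1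
      have h3 : m * (a + 1) = m * a + m := by ring
      omega
    · have h1 : a < k := by
        by_contra hge
        push Not at hge
        have := Nat.mul_le_mul_left m hge
        omega
      have h2 : m * (a + 1) ≤ m * k := Nat.mul_le_mul_left m h1
      have h3 : m * (a + 1) = m * a + m := by ring
      omega

end Pool.Agent.Results.MP_1ab58f_nt.UNumbers
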